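import Pool.Agent.helper36.PT.Spec

/-!
# CON: concentration
-/

set_option autoImplicit false

namespace Pool.Agent.PT

open Finset Pool.Agent.helper71.AA

theorem CON_Gs_nonneg (w : ℕ) (X η R : ℝ) : 0 ≤ Gs (Qm w X η) R := by
  unfold Gs
  refine sum_nonneg fun K hK => one_div_nonneg.2 ?_
  unfold ph
  refine prod_nonneg fun l hl => ?_
  have h1 : l ∈ Qm w X η := mem_powerset.1 (mem_filter.1 hK).1 hl
  have h2 : l.Prime := (mem_filter.1 h1).2
  have h3 : (1 : ℝ) ≤ (l : ℝ) := by exact_mod_cast h2.one_lt.le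
  linarith

theorem CON_Bd_fw (w : ℕ) (X η : ℝ) (ξ : Finset ℕ → ℝ) (p : ℕ) : Bd (fw w X η ξ p) := by
  have h1 : Bd (fun a => Sg ((Qm w X η).erase p) (Rr X) (Az (Qm w X η) p a) ^ 2) :=
    Bd.az (Qm w X η) p (fun A => Sg ((Qm w X η).erase p) (Rr X) A ^ 2)
  have h2 : Bd (fun a => U ξ (Az (Ql X η) p a)) := Bd.az (Ql X η) p (fun A => U ξ A)
  exact h1.mul h2

theorem CON_fw_nonneg {w : ℕ} {X η : ℝ} {ξ : Finset ℕ → ℝ} (h : AdmL X η ξ) (p : ℕ) (a : ℤ) :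
    0 ≤ fw w X η ξ p a := by
  unfold fw
  exact mul_nonneg (sq_nonneg _) (h.nn _ (filter_subset _ _))

theorem CON_ft_nonneg {w : ℕ} {X η : ℝ} {ξ : Finset ℕ → ℝ} (h : AdmL X η ξ) (p : ℕ) (a : ℤ) :
    0 ≤ ft w X η ξ p a := by
  unfold ft
  split_ifs
  · exact CON_fw_nonneg h p a
  · exact le_rfl

theorem CON_ft_le {w : ℕ} {X η : ℝ} {ξ : Finset ℕ → ℝ} (h : AdmL X η ξ) (p : ℕ) (a : ℤ) :
    ft w X η ξ p a ≤ fw w X η ξ p a := by
  unfold ft
  split_ifs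
  · exact le_rfl
  · exact CON_fw_nonneg h p a

theorem CON_Bd_ft {w : ℕ} {X η : ℝ} {ξ : Finset ℕ → ℝ} (h : AdmL X η ξ) (p : ℕ) :
    Bd (ft w X η ξ p) := by
  refine Bd.of_le (CON_Bd_fw w X η ξ p) fun a => ?_
  rw [abs_of_nonneg (CON_ft_nonneg h p a), abs_of_nonneg (CON_fw_nonneg h p a)]
  exact CON_ft_le h p a

theorem CON_Fz_lower (X : ℝ) (hX : 0 < X) (a : ℕ) (ha : 1 ≤ a) (haX : (a : ℝ) ≤ X) :
    4 / Real.pi ^ 2 ≤ Fz (2 * X) (a : ℤ) := by
  unfold Fz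
  have hpi := Real.pi_pos
  have ha' : (0 : ℝ) < (a : ℝ) := by exact_mod_cast ha
  set x : ℝ := Real.pi * ((a : ℤ) : ℝ) / (2 * X) with hx
  have hxa : x = Real.pi * (a : ℝ) / (2 * X) := by rw [hx]; push_cast; rfl
  have hx0 : 0 < x := by rw [hxa]; positivity
  have hx1 : x ≤ Real.pi / 2 := by
    rw [hxa, div_le_div_iff₀ (by positivity) (by norm_num)]
    nlinarith
  have h1 := Real.mul_le_sin hx0.le hx1
  have h2 : 2 / Real.pi ≤ Real.sinc x := by
    rw [Real.sinc_of_ne_zero hx0.ne', le_div_iff₀ hx0]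
    exact h1
  have h3 : 4 / Real.pi ^ 2 = (2 / Real.pi) ^ 2 := by rw [div_pow]; norm_num
  rw [h3]
  exact pow_le_pow_left₀ (by positivity) h2 2

theorem CON_gt {w b : ℕ} {P : ℝ} (hb : b.Coprime (primorial w)) {p : ℕ}
    (hp : p ∈ Ps (primorial w) b P) : w < p := by
  unfold Ps at hp
  rw [mem_filter] at hp
  obtain ⟨_, hpp, hpb⟩ := hp
  by_contra h
  push Not at h
  have hdvd : p ∣ primorial w := by
    refine Finset.dvd_prod_of_mem (fun p => p) (Finset.mem_filter.2 ⟨?_, hpp⟩)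
    exact Finset.mem_range.2 (by omega)
  have h1 : p ∣ b := by
    have h2 : p ≡ b [MOD p] := hpb.of_dvd hdvd
    have h3 : 0 ≡ b [MOD p] := by
      have : p ≡ 0 [MOD p] := by simp [Nat.ModEq]
      exact this.symm.trans h2
    exact (Nat.modEq_zero_iff_dvd).1 h3.symm
  have h4 : p ∣ Nat.gcd b (primorial w) := Nat.dvd_gcd h1 hdvd
  rw [hb] at h4
  exact hpp.one_lt.ne' (Nat.dvd_one.1 h4)

theorem CON_prime {W b : ℕ} {P : ℝ} {p : ℕ} (hp : p ∈ Ps W b P) : p.Prime := by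
  unfold Ps at hp
  rw [mem_filter] at hp
  exact hp.2.1

theorem CON_Bd_sq {F : ℤ → ℝ} (hF : Bd F) : Bd (fun a => F a ^ 2) := by
  have e : (fun a => F a ^ 2) = fun a => F a * F a := by
    funext a
    ring
  rw [e]
  exact hF.mul hF

/-- from the weighted sum to the sum over `As` -/
theorem CON_As (w a₀ : ℕ) (X : ℝ) (hX : 0 < X) (F : ℤ → ℝ) (hF : Bd F) (h0 : ∀ a, 0 ≤ F a) :
    ∑ a ∈ As (primorial w) a₀ X, F (a : ℤ) ≤
      5 / 2 * EN (primorial w) (a₀ : ℤ) (2 * X) F := by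
  have hpi := Real.pi_pos
  have hpi2 : Real.pi ^ 2 ≤ 10 := by
    have := Real.pi_lt_d2
    nlinarith
  have h1 : ∑ a ∈ (As (primorial w) a₀ X).image (fun a : ℕ => (a : ℤ)), Fz (2 * X) a * F a ≤
      EN (primorial w) (a₀ : ℤ) (2 * X) F := by
    refine EN_finset hF h0 _ _ _ (by positivity) _ ?_
    intro a ha
    rw [mem_image] at ha
    obtain ⟨b, hb, rfl⟩ := ha
    have hb2 := (mem_filter.1 hb).2
    exact (Nat.modEq_iff_dvd.1 hb2.symm)
  rw [sum_image (fun x _ y _ hxy => by exact_mod_cast hxy)] at h1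
  have h2 : ∑ a ∈ As (primorial w) a₀ X, 4 / Real.pi ^ 2 * F (a : ℤ) ≤
      ∑ a ∈ As (primorial w) a₀ X, Fz (2 * X) (a : ℤ) * F (a : ℤ) := by
    refine sum_le_sum fun a ha => ?_
    refine mul_le_mul_of_nonneg_right ?_ (h0 _)
    have h3 := mem_Icc.1 (mem_filter.1 ha).1
    refine CON_Fz_lower X hX a h3.1 ?_
    exact (Nat.cast_le.2 h3.2).trans (Nat.floor_le hX.le)
  rw [← mul_sum] at h2
  have h4 := h2.trans h1
  have h5 : 0 ≤ ∑ a ∈ As (primorial w) a₀ X, F (a : ℤ) := sum_nonneg fun a _ => h0 _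
  have h6 : 2 / 5 ≤ 4 / Real.pi ^ 2 := by
    rw [div_le_div_iff₀ (by norm_num) (by positivity)]
    linarith
  have h7 : 2 / 5 * ∑ a ∈ As (primorial w) a₀ X, F (a : ℤ) ≤
      4 / Real.pi ^ 2 * ∑ a ∈ As (primorial w) a₀ X, F (a : ℤ) :=
    mul_le_mul_of_nonneg_right h6 h5
  linarith

theorem CON_EN_one (h4 : CLS_stmt) (w : ℕ) (a₀ : ℤ) (N : ℝ) (hN : 2 ≤ N)
    (hW : (primorial w : ℝ) ≤ N) :
    EN (primorial w) a₀ N (fun _ => 1) = N / (primorial w : ℝ) := by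
  have hWn : 0 < primorial w := primorial_pos w
  have h1 := h4 N (primorial w) a₀ hN hWn
  rw [Fr_zero N (primorial w) hWn (by linarith) hW a₀, add_zero] at h1
  have h2 : (∑' a : ℤ, (if ((primorial w : ℕ) : ℤ) ∣ a - a₀ then Fz N a else 0) : ℝ) =
      N / (primorial w : ℝ) := by exact_mod_cast h1
  unfold EN
  rw [← h2]
  refine tsum_congr fun a => ?_
  rw [mul_one]

/-- the real inequality -/
theorem CON_arith (Y e E2 E1 M N : ℝ) (hY : 0 ≤ Y) (he : 0 ≤ e) (hM : 0 ≤ M) (hMN : M * N ≤ 20 * N ^ 2)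
    (h2 : E2 ≤ Y * (M ^ 2 + e * N ^ 2) + e * Y * N ^ 2) (h1 : Y * (M - e * N) ≤ E1) :
    E2 + (-(2 * M)) * E1 + M ^ 2 * Y ≤ 42 * e * Y * N ^ 2 := by
  have h3 : M * (Y * (M - e * N)) ≤ M * E1 := mul_le_mul_of_nonneg_left h1 hM
  have h4 : e * Y * (M * N) ≤ e * Y * (20 * N ^ 2) :=
    mul_le_mul_of_nonneg_left hMN (mul_nonneg he hY)
  nlinarith

theorem CON (h1 : OFF_stmt) (h2 : FST_stmt) (h3 : DIA_stmt) (h4 : CLS_stmt) : CON_stmt := by
  intro eps heps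
  have he : 0 < eps / 250 := by positivity
  obtain ⟨η₀, hη₀, hF⟩ := h2 (eps / 250) he
  refine ⟨min η₀ (1 / 20), lt_min hη₀ (by norm_num), ?_⟩
  intro η hη hη2
  have hη3 : η ≤ η₀ := hη2.trans (min_le_left _ _)
  have hη4 : η ≤ 1 / 20 := hη2.trans (min_le_right _ _)
  obtain ⟨w1, hF1⟩ := hF η hη hη3
  obtain ⟨w2, hO⟩ := h1 (eps / 250) he
  refine ⟨max (max w1 w2) 10, ?_⟩
  intro w hw
  have hww1 : w1 ≤ w := ((le_max_left _ _).trans (le_max_left _ _)).trans hw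
  have hww2 : w2 ≤ w := ((le_max_right _ _).trans (le_max_left _ _)).trans hw
  have hw10 : 10 ≤ w := (le_max_right _ _).trans hw
  obtain ⟨X1, hF2⟩ := hF1 w hww1
  obtain ⟨X2, hO2⟩ := hO w hww2 η hη hη4
  obtain ⟨C3, X3, hC3, hD⟩ := h3 (eps / 250) he w hw10 η hη hη4
  refine ⟨max C3 1, max (max X1 X2) (max X3 ((primorial w : ℝ) + 3)), by positivity, ?_⟩
  intro X P hX hRg a₀ b hb ξ hAdm hV0 hV1
  have hXX1 : X1 ≤ X := ((le_max_left _ _).trans (le_max_left _ _)).trans hX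
  have hXX2 : X2 ≤ X := ((le_max_right _ _).trans (le_max_left _ _)).trans hX
  have hXX3 : X3 ≤ X := ((le_max_left _ _).trans (le_max_right _ _)).trans hX
  have hXX4 : (primorial w : ℝ) + 3 ≤ X := ((le_max_right _ _).trans (le_max_right _ _)).trans hX
  have hWn : 0 < primorial w := primorial_pos w
  have hWr : (0 : ℝ) < (primorial w : ℝ) := by exact_mod_cast hWn
  have hX3 : 3 ≤ X := by linarith
  have hXpos : 0 < X := by linarith
  have hlog1 : 1 ≤ Real.log X := by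
    rw [Real.le_log_iff_exp_le hXpos]
    have := Real.exp_one_lt_d9
    linarith
  have hll : 0 ≤ Real.log (Real.log X) := Real.log_nonneg hlog1
  have hprod : 0 ≤ Real.log X * Real.log (Real.log X) := mul_nonneg (by linarith) hll
  have hmonoRg : ∀ C' : ℝ, C' ≤ max C3 1 → Rg2 C' X P := by
    intro C' hC'
    refine ⟨le_trans ?_ hRg.1, hRg.2⟩
    rw [mul_assoc, mul_assoc]
    exact mul_le_mul_of_nonneg_right hC' hprod
  set Pset := Ps (primorial w) b P with hPset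
  set G : ℝ := Gs (Qm w X η) (Rr X) with hG
  set V : ℝ := Vx (Ql X η) ξ with hV
  have hG0 : 0 ≤ G := CON_Gs_nonneg w X η (Rr X)
  set n : ℝ := (Pset.card : ℝ) with hn
  have hn0 : 0 ≤ n := Nat.cast_nonneg _
  set Y : ℝ := 2 * X / (primorial w : ℝ) with hY
  have hY0 : 0 ≤ Y := by positivity
  have ho := hO2 X P hXX2 (hmonoRg 1 (le_max_right _ _)) (a₀ : ℤ) b hb ξ hAdm hV0 hV1
  have hd := hD X P hXX3 (hmonoRg C3 (le_max_left _ _)) (a₀ : ℤ) b hb ξ hAdm hV0 hV1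
  rw [← hPset, ← hG, ← hV, ← hn, ← hY] at ho
  rw [← hPset, ← hG, ← hn, ← hY] at hd
  have h2X : 0 < 2 * X := by linarith
  have hBft : ∀ p, Bd (ft w X η ξ p) := fun p => CON_Bd_ft hAdm p
  have hBfw : ∀ p, Bd (fw w X η ξ p) := fun p => CON_Bd_fw w X η ξ p
  -- the first moment
  have hS : Bd (fun a => ∑ p ∈ Pset, ft w X η ξ p a) :=
    Bd.sum Pset (fun p => ft w X η ξ p) fun p _ => hBft p
  have hE1 : Y * (n * G * V - (eps / 250) * (n * G * η)) ≤
      EN (primorial w) (a₀ : ℤ) (2 * X) (fun a => ∑ p ∈ Pset, ft w X η ξ p a) := by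
    rw [EN_sum Pset (fun p => ft w X η ξ p) (fun p _ => hBft p) _ _ _ h2X]
    have h5 : ∀ p ∈ Pset, Y * (G * (V - eps / 250 * η)) ≤
        EN (primorial w) (a₀ : ℤ) (2 * X) (ft w X η ξ p) := by
      intro p hp
      have hpP : (p : ℝ) ≤ X ^ (0.0001 : ℝ) := by
        have h6 := (mem_Icc.1 (mem_filter.1 hp).1).2
        have h7 : p ≠ 0 := (CON_prime hp).ne_zero
        have h8 : (p : ℝ) ≤ P := (Nat.le_floor_iff' h7).1 h6
        exact h8.trans hRg.2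
      exact hF2 X hXX1 p (CON_prime hp) (CON_gt hb hp) hpP (a₀ : ℤ) ξ hAdm hV0 hV1
    refine le_trans (le_of_eq ?_) (sum_le_sum h5)
    rw [sum_const, nsmul_eq_mul, ← hn]
    ring
  -- the second moment
  have hBoff : ∀ p q, Bd (fun a => fw w X η ξ p a * fw w X η ξ q a) :=
    fun p q => (hBfw p).mul (hBfw q)
  have hBdia : ∀ p, Bd (fun a => ft w X η ξ p a ^ 2) := fun p => CON_Bd_sq (hBft p)
  have hBS2 : Bd (fun a => (∑ p ∈ Pset, ft w X η ξ p a) ^ 2) := CON_Bd_sq hS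
  have hBoffS : Bd (fun a => ∑ p ∈ Pset, ∑ q ∈ Pset.erase p, fw w X η ξ p a * fw w X η ξ q a) :=
    Bd.sum Pset (fun p a => ∑ q ∈ Pset.erase p, fw w X η ξ p a * fw w X η ξ q a)
      fun p _ => Bd.sum (Pset.erase p) (fun q a => fw w X η ξ p a * fw w X η ξ q a)
        fun q _ => hBoff p q
  have hBdiaS : Bd (fun a => ∑ p ∈ Pset, ft w X η ξ p a ^ 2) :=
    Bd.sum Pset (fun p a => ft w X η ξ p a ^ 2) fun p _ => hBdia p
  have hE2 : EN (primorial w) (a₀ : ℤ) (2 * X) (fun a => (∑ p ∈ Pset, ft w X η ξ p a) ^ 2) ≤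
      Y * ((n * G * V) ^ 2 + (eps / 250) * (n * G * η) ^ 2) +
        (eps / 250) * Y * (n * G * η) ^ 2 := by
    have h5 : ∀ a : ℤ, (∑ p ∈ Pset, ft w X η ξ p a) ^ 2 ≤
        (∑ p ∈ Pset, ∑ q ∈ Pset.erase p, fw w X η ξ p a * fw w X η ξ q a) +
          ∑ p ∈ Pset, ft w X η ξ p a ^ 2 := by
      intro a
      rw [sq, sum_mul_sum, ← sum_add_distrib]
      refine sum_le_sum fun p hp => ?_
      rw [← add_sum_erase _ _ hp]
      have h6 : ∑ q ∈ Pset.erase p, ft w X η ξ p a * ft w X η ξ q a ≤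
          ∑ q ∈ Pset.erase p, fw w X η ξ p a * fw w X η ξ q a :=
        sum_le_sum fun q _ => mul_le_mul (CON_ft_le hAdm p a) (CON_ft_le hAdm q a)
          (CON_ft_nonneg hAdm q a) (CON_fw_nonneg hAdm p a)
      rw [← sq]
      linarith
    refine (EN_mono hBS2 (hBoffS.add hBdiaS) h5 _ _ _ h2X).trans ?_
    rw [EN_add hBoffS hBdiaS _ _ _ h2X]
    refine add_le_add ?_ ?_
    · rw [EN_sum Pset (fun p a => ∑ q ∈ Pset.erase p, fw w X η ξ p a * fw w X η ξ q a)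
        (fun p _ => Bd.sum (Pset.erase p) (fun q a => fw w X η ξ p a * fw w X η ξ q a)
          fun q _ => hBoff p q) _ _ _ h2X]
      refine le_trans (le_of_eq ?_) ho
      refine sum_congr rfl fun p _ => ?_
      exact EN_sum (Pset.erase p) (fun q a => fw w X η ξ p a * fw w X η ξ q a)
        (fun q _ => hBoff p q) _ _ _ h2X
    · rw [EN_sum Pset (fun p a => ft w X η ξ p a ^ 2) (fun p _ => hBdia p) _ _ _ h2X]
      exact hd
  -- the variance
  have hEone := CON_EN_one h4 w (a₀ : ℤ) (2 * X) (by linarith) (by linarith)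
  have hvar : EN (primorial w) (a₀ : ℤ) (2 * X)
      (fun a => (∑ p ∈ Pset, ft w X η ξ p a - n * G * V) ^ 2) =
      EN (primorial w) (a₀ : ℤ) (2 * X) (fun a => (∑ p ∈ Pset, ft w X η ξ p a) ^ 2) +
        (-(2 * (n * G * V))) *
          EN (primorial w) (a₀ : ℤ) (2 * X) (fun a => ∑ p ∈ Pset, ft w X η ξ p a) +
        (n * G * V) ^ 2 * Y := by
    have e1 : (fun a : ℤ => (∑ p ∈ Pset, ft w X η ξ p a - n * G * V) ^ 2) =
        fun a : ℤ => ((fun a : ℤ => (∑ p ∈ Pset, ft w X η ξ p a) ^ 2) a +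
          (fun a : ℤ => (-(2 * (n * G * V))) * ∑ p ∈ Pset, ft w X η ξ p a) a) +
          (fun _ : ℤ => (n * G * V) ^ 2 * 1) a := by
      funext a
      ring
    rw [e1]
    have hb1 : Bd (fun a : ℤ => (-(2 * (n * G * V))) * ∑ p ∈ Pset, ft w X η ξ p a) := hS.cmul _
    have hb2 : Bd (fun _ : ℤ => (n * G * V) ^ 2 * 1) := Bd.const _
    rw [EN_add (hBS2.add hb1) hb2 _ _ _ h2X, EN_add hBS2 hb1 _ _ _ h2X, EN_cmul,
      EN_cmul (fun _ => 1), hEone]
  have hM0 : 0 ≤ n * G * V := mul_nonneg (mul_nonneg hn0 hG0) hV0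
  have hMN : (n * G * V) * (n * G * η) ≤ 20 * (n * G * η) ^ 2 := by
    have h5 : 0 ≤ (n * G) * (n * G) * η := by positivity
    have h6 : (n * G) * (n * G) * η * V ≤ (n * G) * (n * G) * η * (20 * η) :=
      mul_le_mul_of_nonneg_left hV1 h5
    nlinarith
  have hfin := CON_arith Y (eps / 250) _ _ (n * G * V) (n * G * η) hY0 he.le hM0 hMN hE2 hE1
  rw [← hvar] at hfin
  have hBvar : Bd (fun a : ℤ => (∑ p ∈ Pset, ft w X η ξ p a - n * G * V) ^ 2) :=
    CON_Bd_sq (hS.sub (Bd.const (n * G * V)))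
  have hAs := CON_As w a₀ X hXpos
    (fun a : ℤ => (∑ p ∈ Pset, ft w X η ξ p a - n * G * V) ^ 2) hBvar (fun a => sq_nonneg _)
  refine hAs.trans ?_
  have h9 : 5 / 2 * (42 * (eps / 250) * Y * (n * G * η) ^ 2) ≤
      eps * (X / (primorial w : ℝ)) * (n * G * η) ^ 2 := by
    have h10 : 5 / 2 * (42 * (eps / 250) * Y * (n * G * η) ^ 2) =
        (210 / 250) * (eps * (X / (primorial w : ℝ)) * (n * G * η) ^ 2) := by
      rw [hY]; ring
    have h11 : 0 ≤ eps * (X / (primorial w : ℝ)) * (n * G * η) ^ 2 := by positivity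
    rw [h10]
    linarith
  linarith

end Pool.Agent.PT
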